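import Pool.Agent.Q90.SD.Core

/-!
# Two agents: SD-EF1 for subjective utilities together with EF1 for a common valuation

For two agents, any number of goods, any subjective utilities and any monotone common valuation
(additive or not) some allocation is SD-EF1 for the subjective utilities and EF1 for the common
valuation.
-/

set_option autoImplicit false

namespace Pool.Agent.Results.MP_d51325_lc.TwoAgents

open Finset

/-- The bundle of agent `i` in the allocation `A`, which gives the good `g` to the agent `A g`. -/
def bundle {m n : ℕ} (A : Fin m → Fin n) (i : Fin n) : Finset (Fin m) :=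
  univ.filter fun g => A g = i

/-- The allocation `A` is EF1 with respect to the valuations `w i` (functions of sets of goods). -/
def IsEF1 {m n : ℕ} (w : Fin n → Finset (Fin m) → ℝ) (A : Fin m → Fin n) : Prop :=
  ∀ i j, bundle A j = ∅ ∨ ∃ g ∈ bundle A j, w i (bundle A j \ {g}) ≤ w i (bundle A i)

/-- The allocation `A` is SD-EF1 with respect to the additive valuations with the values `u i g` of
the single goods: for all agents `i`, `j` and goods `g`, if `T` is the set of the goods which are
worth at least as much as `g` to agent `i`, then `|A_i ∩ T| ≥ |A_j ∩ T| - 1`. -/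
def IsSDEF1 {m n : ℕ} (u : Fin n → Fin m → ℝ) (A : Fin m → Fin n) : Prop :=
  ∀ i j g, (bundle A j ∩ univ.filter fun g' => u i g ≤ u i g').card ≤
    (bundle A i ∩ univ.filter fun g' => u i g ≤ u i g').card + 1

open Pool.Agent.Q90.SD

/-- the ranking of the real goods followed by the dummies -/
noncomputable def rk {m : ℕ} (f : Fin m → ℝ) : Fin m ⊕ Fin m ≃ Fin (m + m) :=
  (Equiv.sumCongr (Tuple.sort fun g => - f g).symm (Equiv.refl _)).trans finSumFinEquiv

/-- the real goods of a set -/
def re {m : ℕ} (S : Finset (Fin m ⊕ Fin m)) : Finset (Fin m) := univ.filter fun g => Sum.inl g ∈ S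

theorem rk_lt {m : ℕ} (f : Fin m → ℝ) (x : Fin m) : ((rk f (Sum.inl x) : Fin (m + m)) : ℕ) =
    ((Tuple.sort fun g => - f g).symm x : ℕ) := by
  simp [rk]

theorem rk_inr {m : ℕ} (f : Fin m → ℝ) (x : Fin m) :
    ((rk f (Sum.inr x) : Fin (m + m)) : ℕ) = m + x := by
  simp [rk, add_comm]

/-- an upper set of goods is a lower set of places -/
theorem low_upper {m : ℕ} (f : Fin m → ℝ) (g : Fin m) :
    Low (ofEquiv (rk f)) ((univ.filter fun g' => f g ≤ f g').map Function.Embedding.inl) := by
  intro x hx y hy
  rw [Finset.mem_map] at hx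
  obtain ⟨g', hg', rfl⟩ := hx
  rw [Finset.mem_filter] at hg'
  change ((rk f y : Fin (m + m)) : ℕ) ≤ ((rk f (Sum.inl g') : Fin (m + m)) : ℕ) at hy
  rw [rk_lt] at hy
  rcases y with y | y
  · rw [rk_lt] at hy
    have h1 : (Tuple.sort fun g => - f g).symm y ≤ (Tuple.sort fun g => - f g).symm g' := hy
    have h2 := Tuple.monotone_sort (fun g => - f g) h1
    simp only [Function.comp_apply, Equiv.apply_symm_apply] at h2
    rw [Finset.mem_map]
    refine ⟨y, ?_, rfl⟩
    rw [Finset.mem_filter]
    exact ⟨mem_univ _, by linarith [hg'.2]⟩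
  · rw [rk_inr] at hy
    have h1 := ((Tuple.sort fun g => - f g).symm g').2
    omega

theorem re_mono {m : ℕ} {S T : Finset (Fin m ⊕ Fin m)} (h : S ⊆ T) : re S ⊆ re T := by
  intro g hg
  unfold re at hg ⊢
  rw [Finset.mem_filter] at hg ⊢
  exact ⟨hg.1, h hg.2⟩

/-- signed sums count -/
theorem sum_c {m : ℕ} (A : Fin m ⊕ Fin m → Bool) (T : Finset (Fin m)) :
    ∑ x ∈ T.map Function.Embedding.inl, c (A x) =
      ((univ.filter fun g => A (Sum.inl g) = true) ∩ T).card -
        (((univ.filter fun g => A (Sum.inl g) = false) ∩ T).card : ℤ) := by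
  rw [Finset.sum_map]
  have h1 : ∀ b : Bool, (univ.filter fun g => A (Sum.inl g) = b) ∩ T =
      T.filter fun g => A (Sum.inl g) = b := by
    intro b
    ext g
    simp [and_comm]
  rw [h1, h1, Finset.card_filter, Finset.card_filter]
  push_cast
  rw [← Finset.sum_sub_distrib]
  refine Finset.sum_congr rfl fun g _ => ?_
  show c (A (Sum.inl g)) = _
  cases A (Sum.inl g) <;> simp [c]

/-- For two agents, every number `m` of goods, all subjective utilities and every common valuation
`v` which is monotone (`v S ≤ v T` for `S ⊆ T`; it need not be additive) some allocation is SD-EF1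
for the utilities and EF1 for `v`. -/
theorem result (m : ℕ) (u : Fin 2 → Fin m → ℝ) :
    (∀ v : Finset (Fin m) → ℝ, Monotone v →
      ∃ A : Fin m → Fin 2, IsSDEF1 u A ∧ IsEF1 (fun _ => v) A) ∧
    ∀ v : Fin m → ℝ, (∀ g, 0 ≤ v g) →
      ∃ A : Fin m → Fin 2, IsSDEF1 u A ∧ IsEF1 (fun _ S => ∑ g ∈ S, v g) A := by
  have main : ∀ v : Finset (Fin m) → ℝ, Monotone v →
      ∃ A : Fin m → Fin 2, IsSDEF1 u A ∧ IsEF1 (fun _ => v) A := by
    intro v hv
    obtain ⟨B, hB, hE⟩ := core (ofEquiv (rk (u 0))) (ofEquiv (rk (u 1)))
      (fun S => v (re S)) fun S T h => hv (re_mono h)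
    let A : Fin m → Fin 2 := fun g => if B (Sum.inl g) = true then 0 else 1
    have hA0 : bundle A 0 = univ.filter fun g => B (Sum.inl g) = true := by
      ext g
      simp only [bundle, A, Finset.mem_filter, Finset.mem_univ, true_and]
      cases B (Sum.inl g) <;> simp
    have hA1 : bundle A 1 = univ.filter fun g => B (Sum.inl g) = false := by
      ext g
      simp only [bundle, A, Finset.mem_filter, Finset.mem_univ, true_and]
      cases B (Sum.inl g) <;> simp
    have hre : ∀ b, re (bun B b) = univ.filter fun g => B (Sum.inl g) = b := by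
      intro b
      ext g
      simp [re, mem_bun]
    have hre' : ∀ b (g : Fin m), re ((bun B b).erase (Sum.inl g)) =
        (univ.filter fun g => B (Sum.inl g) = b) \ {g} := by
      intro b g
      ext g'
      simp [re, mem_bun, and_comm]
    have hef : ∀ b, (univ.filter fun g => B (Sum.inl g) = b) = ∅ ∨
        ∃ g ∈ (univ.filter fun g => B (Sum.inl g) = b),
          v ((univ.filter fun g => B (Sum.inl g) = b) \ {g}) ≤
            v (univ.filter fun g => B (Sum.inl g) = !b) := by
      intro b
      rcases (univ.filter fun g => B (Sum.inl g) = b).eq_empty_or_nonempty with h0 | ⟨g0, hg0⟩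
      · exact Or.inl h0
      · right
        rcases hE b with h1 | ⟨x, hx, h1⟩
        · exfalso
          rw [Finset.mem_filter] at hg0
          have h2 : Sum.inl g0 ∈ bun B b := mem_bun.2 hg0.2
          rw [h1] at h2
          simp at h2
        · rcases x with x | x
          · refine ⟨x, ?_, ?_⟩
            · rw [Finset.mem_filter]
              exact ⟨mem_univ _, mem_bun.1 hx⟩
            · have h2 : v (re ((bun B b).erase (Sum.inl x))) ≤ v (re (bun B !b)) := h1
              rwa [hre', hre] at h2
          · refine ⟨g0, hg0, ?_⟩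
            have h2 : v (re ((bun B b).erase (Sum.inr x))) ≤ v (re (bun B !b)) := h1
            rw [hre] at h2
            refine le_trans (hv ?_) h2
            intro g hg
            rw [Finset.mem_sdiff, Finset.mem_filter] at hg
            simp only [re, Finset.mem_filter, Finset.mem_univ, true_and, Finset.mem_erase,
              mem_bun]
            exact ⟨by simp, hg.1.2⟩
    refine ⟨A, ?_, ?_⟩
    · intro i j g
      by_cases hij : i = j
      · subst hij
        omega
      have h1 := hB.one (low_upper (u 0) g)
      have h2 := hB.two (low_upper (u 1) g)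
      rw [sum_c] at h1 h2
      fin_cases i <;> fin_cases j
      · exact absurd rfl hij
      · show (bundle A 1 ∩ univ.filter fun g' => u 0 g ≤ u 0 g').card ≤
          (bundle A 0 ∩ univ.filter fun g' => u 0 g ≤ u 0 g').card + 1
        rw [hA0, hA1]
        omega
      · show (bundle A 0 ∩ univ.filter fun g' => u 1 g ≤ u 1 g').card ≤
          (bundle A 1 ∩ univ.filter fun g' => u 1 g ≤ u 1 g').card + 1
        rw [hA0, hA1]
        omega
      · exact absurd rfl hij
    · intro i j
      by_cases hij : i = j
      · subst hij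
        rcases (bundle A i).eq_empty_or_nonempty with h0 | ⟨g0, hg0⟩
        · exact Or.inl h0
        · exact Or.inr ⟨g0, hg0, hv Finset.sdiff_subset⟩
      fin_cases i <;> fin_cases j
      · exact absurd rfl hij
      · show bundle A 1 = ∅ ∨ ∃ g ∈ bundle A 1, v (bundle A 1 \ {g}) ≤ v (bundle A 0)
        rw [hA0, hA1]
        exact hef false
      · show bundle A 0 = ∅ ∨ ∃ g ∈ bundle A 0, v (bundle A 0 \ {g}) ≤ v (bundle A 1)
        rw [hA0, hA1]
        exact hef true
      · exact absurd rfl hij
  refine ⟨main, fun v hv => main (fun S => ∑ g ∈ S, v g) ?_⟩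
  intro S T h
  exact Finset.sum_le_sum_of_subset_of_nonneg h fun g _ _ => hv g

end Pool.Agent.Results.MP_d51325_lc.TwoAgents
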